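import Mathlib

namespace Pool.Agent.Results.MP_b34cfe_co.Full

theorem result : ∃ n t d : ℕ, 0 < n ∧ 0 < t ∧ 0 < d ∧ ∃ l : ℕ,
    IsLeast {m : ℕ | 2 ^ d ≤ m ∧ ¬ m ∣ n} l ∧
    ∃ S : Multiset (Fin d → ZMod n), S.sum = 0 ∧
      ((t : ℤ) + 2 ^ d - 1) * n - l + 1 ≤ (Multiset.card S : ℤ) ∧
      ∀ T : Multiset (Fin d → ZMod n), T ≤ S → Multiset.card T = n * t → T.sum ≠ 0 := by
  refine ⟨3, 1, 3, by norm_num, by norm_num, by norm_num, 8, ⟨⟨by norm_num, by norm_num⟩,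
    fun m hm => by simpa using hm.1⟩,
    {![0, 0, 0], ![0, 0, 1], ![0, 1, 0], ![0, 1, 1], ![1, 0, 0], ![1, 0, 1], ![1, 1, 2],
      ![1, 2, 2], ![2, 1, 2], ![0, 0, 1], ![0, 1, 0], ![0, 1, 1], ![1, 0, 0], ![1, 0, 1],
      ![1, 1, 2], ![1, 2, 2], ![2, 1, 2]}, by decide +kernel, by norm_num, fun T h1 h2 => ?_⟩
  have := Multiset.mem_powersetCard.2 ⟨h1, h2⟩
  revert T
  have key : ∀ T ∈ Multiset.powersetCard (3 * 1) ({![0, 0, 0], ![0, 0, 1], ![0, 1, 0], ![0, 1, 1],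
      ![1, 0, 0], ![1, 0, 1], ![1, 1, 2], ![1, 2, 2], ![2, 1, 2], ![0, 0, 1], ![0, 1, 0],
      ![0, 1, 1], ![1, 0, 0], ![1, 0, 1], ![1, 1, 2], ![1, 2, 2], ![2, 1, 2]} :
      Multiset (Fin 3 → ZMod 3)), T.sum ≠ 0 := by decide +kernel
  exact fun T _ _ h => key T h

end Pool.Agent.Results.MP_b34cfe_co.Full
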